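import Mathlib
import Pool.Agent.H82.FEmb

set_option autoImplicit false

namespace Pool.Agent.Results.MP_b12a75_gt.Ultraregular

open Set Filter Topology Pool.Agent.H82.FEmb Classical

/-- first functional Lebesgue class -/
def K1 {X : Type} [TopologicalSpace X] (f : X → ℝ) : Prop :=
  ∀ V : Set ℝ, IsOpen V → FFs (f ⁻¹' V)

/-- bounded function -/
def Bdd {X : Type} (f : X → ℝ) : Prop := ∃ c : ℝ, ∀ x, |f x| ≤ c

def Good (B : Set (Set ℕ)) : Prop :=
  (∀ A ∈ B, Aᶜ ∈ B) ∧ (∀ A ∈ B, ∀ A' ∈ B, A ∩ A' ∈ B) ∧ ∀ A ∈ B, ∀ x, A ≠ {x}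

def B0 : Set (Set ℕ) := {A | ∃ n > 0, ∀ x, x + n ∈ A ↔ x ∈ A}

lemma per {A : Set ℕ} {n : ℕ} (h : ∀ x, x + n ∈ A ↔ x ∈ A) (k x : ℕ) : x + n * k ∈ A ↔ x ∈ A := by
  induction k with
  | zero => simp
  | succ k ih => rw [mul_add, mul_one, ← add_assoc, h, ih]

lemma good_B0 : Good B0 := by
  refine ⟨?_, ?_, ?_⟩
  · rintro A ⟨n, hn, h⟩
    exact ⟨n, hn, fun x => not_congr (h x)⟩
  · rintro A ⟨n, hn, h⟩ A' ⟨m, hm, h'⟩
    refine ⟨n * m, Nat.mul_pos hn hm, fun x => and_congr (per h m x) ?_⟩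
    rw [mul_comm]; exact per h' n x
  · rintro _ ⟨n, hn, h⟩ x rfl
    have := (h x).2 rfl
    simp only [mem_singleton_iff] at this
    omega

lemma exM : ∃ M, B0 ⊆ M ∧ Maximal Good M := by
  refine zorn_subset_nonempty {B | Good B} (fun c hc hch _ => ⟨⋃₀ c, ⟨?_, ?_, ?_⟩,
    fun s hs => subset_sUnion_of_mem hs⟩) B0 good_B0
  · rintro A ⟨B, hB, hA⟩
    exact ⟨B, hB, (hc hB).1 A hA⟩
  · rintro A ⟨B, hB, hA⟩ A' ⟨B', hB', hA'⟩
    rcases hch.total hB hB' with h | h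
    · exact ⟨B', hB', (hc hB').2.1 A (h hA) A' hA'⟩
    · exact ⟨B, hB, (hc hB).2.1 A hA A' (h hA')⟩
  · rintro A ⟨B, hB, hA⟩
    exact (hc hB).2.2 A hA

noncomputable def M : Set (Set ℕ) := exM.choose

lemma M0 : B0 ⊆ M := exM.choose_spec.1
lemma Mg : Good M := exM.choose_spec.2.1
lemma Mu : univ ∈ M := M0 ⟨1, one_pos, by simp⟩
lemma Me : ∅ ∈ M := M0 ⟨1, one_pos, by simp⟩

lemma Mun {A A' : Set ℕ} (h : A ∈ M) (h' : A' ∈ M) : A ∪ A' ∈ M := by
  simpa [compl_inter] using Mg.1 _ (Mg.2.1 _ (Mg.1 _ h) _ (Mg.1 _ h'))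

lemma Mmax {A : Set ℕ} (h1 : ∀ x ∈ A, ∀ V ∈ M, x ∈ V → ∃ y ∈ V, y ∈ A ∧ y ≠ x)
    (h2 : ∀ x ∉ A, ∀ V ∈ M, x ∈ V → ∃ y ∈ V, y ∉ A ∧ y ≠ x) : A ∈ M := by
  have hg : Good {W | ∃ V ∈ M, ∃ V' ∈ M, W = (V ∩ A) ∪ (V' \ A)} := by
    refine ⟨?_, ?_, ?_⟩
    · rintro _ ⟨V, hV, V', hV', rfl⟩
      refine ⟨_, Mg.1 _ hV, _, Mg.1 _ hV', ?_⟩
      ext x; by_cases hx : x ∈ A <;> simp [hx]
    · rintro _ ⟨V, hV, V', hV', rfl⟩ _ ⟨W, hW, W', hW', rfl⟩
      refine ⟨_, Mg.2.1 _ hV _ hW, _, Mg.2.1 _ hV' _ hW', ?_⟩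
      ext x; by_cases hx : x ∈ A <;> simp [hx]
    · rintro _ ⟨V, hV, V', hV', rfl⟩ x h
      rcases (h.symm.subset (mem_singleton x)) with hx | hx
      · obtain ⟨y, a, b, c⟩ := h1 x hx.2 V hV hx.1
        exact c (h.subset (Or.inl ⟨a, b⟩))
      · obtain ⟨y, a, b, c⟩ := h2 x hx.2 V' hV' hx.1
        exact c (h.subset (Or.inr ⟨a, b⟩))
  refine exM.choose_spec.2.2 hg (fun V hV => ⟨V, hV, V, hV, by simp⟩) ⟨_, Mu, _, Me, by simp⟩

noncomputable def e (x : ℕ) : M → Bool := fun A => decide (x ∈ A.1)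

abbrev X : Type := closure (range e)

noncomputable def io (x : ℕ) : X := ⟨e x, subset_closure (mem_range_self x)⟩

def hat (A : Set ℕ) (h : A ∈ M) : Set X := {p | p.1 ⟨A, h⟩ = true}

lemma hat_clopen (A : Set ℕ) (h : A ∈ M) : IsClopen (hat A h) :=
  (isClopen_discrete {true}).preimage ((continuous_apply _).comp continuous_subtype_val)

lemma io_hat {A : Set ℕ} {h : A ∈ M} {x : ℕ} : io x ∈ hat A h ↔ x ∈ A := by
  simp [hat, io, e]

lemma md (x n : ℕ) : {y | y ≡ x [MOD n + 1]} ∈ M :=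
  M0 ⟨n + 1, n.succ_pos, fun y => by simp [Nat.ModEq]⟩

def Zx (x : ℕ) : Set X := ⋂ n, hat _ (md x n)

lemma io_Zx {x y : ℕ} : io y ∈ Zx x ↔ y = x := by
  simp only [Zx, mem_iInter, io_hat, mem_ofPred_eq]
  refine ⟨fun h => (h (x + y)).eq_of_lt_of_lt (by omega) (by omega), ?_⟩
  rintro rfl n
  rfl

lemma io_inj : Function.Injective io := fun _ _ h => io_Zx.1 (h ▸ io_Zx.2 rfl)

def Tr (S : Set ℕ) : Prop := ∃ B : Set X, FFs B ∧ FFs Bᶜ ∧ io ⁻¹' B = S

lemma Tr.compl {S : Set ℕ} (h : Tr S) : Tr Sᶜ := by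
  obtain ⟨B, a, b, rfl⟩ := h
  exact ⟨Bᶜ, b, by simpa using a, rfl⟩

lemma Tr.inter {S T : Set ℕ} (h : Tr S) (h' : Tr T) : Tr (S ∩ T) := by
  obtain ⟨B, a, b, rfl⟩ := h
  obtain ⟨B', a', b', rfl⟩ := h'
  exact ⟨B ∩ B', a.inter a', by rw [compl_inter]; exact b.union b', rfl⟩

lemma Tr.union {S T : Set ℕ} (h : Tr S) (h' : Tr T) : Tr (S ∪ T) := by
  simpa [compl_inter] using (h.compl.inter h'.compl).compl

lemma trM {A : Set ℕ} (h : A ∈ M) : Tr A :=
  ⟨hat A h, (fclosed_clopen (hat_clopen A h)).ffs, (fclosed_clopen (hat_clopen A h).compl).ffs,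
    Set.ext fun _ => io_hat⟩

lemma tr_sub {x : ℕ} {S : Set ℕ} (h : S ⊆ {x}) : Tr S := by
  rcases subset_singleton_iff_eq.1 h with rfl | rfl
  · exact trM Me
  · refine ⟨Zx x, (fclosed_iInter fun n => hat_clopen _ _).ffs, ?_, Set.ext fun _ => io_Zx⟩
    rw [Zx, compl_iInter]
    exact ffs_iUnion fun n => (fclosed_clopen (hat_clopen _ _).compl).ffs

lemma tr_iUnion {S : Set ℕ} {V : ℕ → Set ℕ} (hV : ∀ j, V j ∈ M) (h : ∀ j, Tr (S ∩ V j)) :
    Tr (S ∩ ⋃ j, V j) := by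
  choose B h1 h2 h3 using h
  let H : ℕ → Set X := fun j => hat _ (hV j)
  have hD : ∀ j, IsClopen (disjointed H j) := fun j =>
    disjointedRec (p := IsClopen) (fun _ i ht => ht.diff (hat_clopen _ _)) (hat_clopen _ _)
  refine ⟨⋃ j, B j ∩ disjointed H j,
    ffs_iUnion fun j => (h1 j).inter (fclosed_clopen (hD j)).ffs, ?_, ?_⟩
  · convert ((fclosed_iInter fun j => (hD j).compl).ffs).union
      (ffs_iUnion fun j => (h2 j).inter (fclosed_clopen (hD j)).ffs) using 1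
    ext p
    simp only [mem_compl_iff, mem_iUnion, mem_inter_iff, not_exists, not_and, mem_union,
      mem_iInter]
    constructor
    · intro h
      by_cases h4 : ∃ j, p ∈ disjointed H j
      · obtain ⟨j, hj⟩ := h4
        exact Or.inr ⟨j, fun h5 => h j h5 hj, hj⟩
      · exact Or.inl fun j hj => h4 ⟨j, hj⟩
    · rintro (h | ⟨j, h4, h5⟩) i h6 h7
      · exact h i h7
      · by_cases hij : i = j
        · exact h4 (hij ▸ h6)
        · exact Set.disjoint_left.1 (disjoint_disjointed H hij) h7 h5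
  · ext x
    simp only [mem_preimage, mem_iUnion, mem_inter_iff]
    constructor
    · rintro ⟨j, a, -⟩
      have : x ∈ S ∩ V j := h3 j ▸ a
      exact ⟨this.1, j, this.2⟩
    · rintro ⟨a, j, b⟩
      have : io x ∈ ⋃ j, disjointed H j := by
        rw [iUnion_disjointed]; exact mem_iUnion.2 ⟨j, io_hat.2 b⟩
      obtain ⟨i, hi⟩ := mem_iUnion.1 this
      have h4 : x ∈ io ⁻¹' B i := by
        rw [h3 i]; exact ⟨a, io_hat.1 (disjointed_subset H i hi)⟩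
      exact ⟨i, h4, hi⟩

lemma tr_all (S : Set ℕ) : Tr S := by
  have h0 : ∀ x, ∃ V ∈ M, Tr (S ∩ V) ∧ ((∃ V ∈ M, x ∈ V ∧ Tr (S ∩ V)) → x ∈ V) := by
    intro x
    by_cases h : ∃ V ∈ M, x ∈ V ∧ Tr (S ∩ V)
    · obtain ⟨V, a, b, c⟩ := h
      exact ⟨V, a, c, fun _ => b⟩
    · exact ⟨∅, Me, by simpa using trM Me, fun h' => absurd h' h⟩
  choose W hW hT hx using h0
  have hSO := tr_iUnion hW hT
  have hO := tr_iUnion (S := univ) hW fun j => by simpa using trM (hW j)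
  rw [univ_inter] at hO
  set O := ⋃ j, W j with hOd
  have k1 : ∀ x ∉ O, ∀ V ∈ M, x ∈ V → ∃ y ∈ V, (y ∉ O ∧ y ∈ S) ∧ y ≠ x := by
    intro x hxO V hV hxV
    by_contra h
    push Not at h
    refine hxO (mem_iUnion.2 ⟨x, hx x ⟨V, hV, hxV, ?_⟩⟩)
    convert (hSO.union (tr_sub (S := S ∩ {x}) inter_subset_right)).inter (trM hV) using 1
    ext y
    have := h y
    simp only [mem_inter_iff, mem_union, mem_singleton_iff]
    tauto
  have k2 : ∀ x ∉ O, ∀ V ∈ M, x ∈ V → ∃ y ∈ V, (y ∉ O ∧ y ∉ S) ∧ y ≠ x := by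
    intro x hxO V hV hxV
    by_contra h
    push Not at h
    refine hxO (mem_iUnion.2 ⟨x, hx x ⟨V, hV, hxV, ?_⟩⟩)
    convert ((hO.inter hSO.compl).union
      (tr_sub (S := Sᶜ ∩ {x}) inter_subset_right)).compl.inter (trM hV) using 1
    ext y
    have := h y
    simp only [mem_inter_iff, mem_union, mem_singleton_iff, mem_compl_iff]
    tauto
  have hA : {y | y ∉ O ∧ y ∈ S} ∈ M := by
    refine Mmax (fun x h => k1 x h.1) fun x _ V hV hxV => ?_
    by_cases h : x ∈ O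
    · obtain ⟨j, hj⟩ := mem_iUnion.1 h
      by_contra h1
      push Not at h1
      refine Mg.2.2 _ (Mg.2.1 _ hV _ (hW j)) x
        (eq_singleton_iff_unique_mem.2 ⟨⟨hxV, hj⟩, fun y hy => h1 y hy.1 fun h2 => ?_⟩)
      exact h2.1 (mem_iUnion.2 ⟨j, hy.2⟩)
    · obtain ⟨y, a, b, c⟩ := k2 x h V hV hxV
      exact ⟨y, a, fun h1 => b.2 h1.2, c⟩
  have : O = univ := by
    refine eq_univ_of_forall fun x => by_contra fun h => ?_
    obtain ⟨y, -, b, -⟩ := k2 x h _ Mu trivial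
    obtain ⟨z, a, c, -⟩ := k1 y b.1 _ (Mg.1 _ hA) fun h1 => b.2 h1.2
    exact a c
  rwa [this, inter_univ] at hSO

lemma k1_of {B : ℕ → Set X} (h1 : ∀ n, FFs (B n)) (h2 : ∀ n, FFs (B n)ᶜ)
    {ψ : (ℕ → Bool) → ℝ} (hψ : Continuous ψ) : K1 fun p => ψ fun n => decide (p ∈ B n) := by
  intro V hV
  have h3 : ∀ (k : ℕ) (σ : ℕ → Bool), FFs {p : X | ∀ i < k, decide (p ∈ B i) = σ i} := by
    intro k σ
    induction k with
    | zero => simpa using (fclosed_clopen (isClopen_univ (X := X))).ffs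
    | succ k ih =>
      have h4 : FFs {p : X | decide (p ∈ B k) = σ k} := by
        cases σ k
        · convert h2 k using 1; ext p; simp
        · convert h1 k using 1; ext p; simp
      convert ih.inter h4 using 1
      ext p
      exact Nat.forall_lt_succ_right
  let T := {q : ℕ × Finset ℕ // ∀ τ : ℕ → Bool, (∀ i < q.1, τ i = decide (i ∈ q.2)) → ψ τ ∈ V}
  convert ffs_iUnion fun q : T => h3 q.1.1 fun i => decide (i ∈ q.1.2) using 1
  ext p
  simp only [mem_preimage, mem_iUnion, mem_ofPred_eq]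
  refine ⟨fun h => ?_, fun ⟨q, hq⟩ => q.2 _ hq⟩
  have h4 := (hV.preimage hψ).mem_nhds h
  rw [nhds_pi, Filter.mem_pi] at h4
  obtain ⟨I, hI, t, ht, hO⟩ := h4
  obtain ⟨k, hk⟩ := hI.bddAbove
  refine ⟨⟨(k + 1, (Finset.range (k + 1)).filter fun i => p ∈ B i), fun τ hτ => hO fun i hi => ?_⟩,
    fun i hi => ?_⟩
  · have h5 := Nat.lt_succ_of_le (hk hi)
    have h6 : τ i = decide (p ∈ B i) := by rw [hτ i h5]; simp [h5]
    rw [h6]
    exact mem_of_mem_nhds (ht i)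
  · have h5 : i < k + 1 := hi
    simp [h5]

lemma noiso {n : ℕ} {U : Set X} (h : U ∈ 𝓝 (io n)) : ∃ m ≠ n, io m ∈ U := by
  rw [mem_nhds_subtype] at h
  obtain ⟨u, hu, huU⟩ := h
  rw [nhds_pi, Filter.mem_pi] at hu
  obtain ⟨I, hI, t, ht, hO⟩ := hu
  have h1 : {m | ∀ A ∈ I, e m A = e n A} ∈ M := by
    clear hO
    induction I, hI using Set.Finite.induction_on with
    | empty => simpa using Mu
    | @insert A I _ _ ih =>
      have h2 : {m | e m A = e n A} ∈ M := by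
        by_cases h : n ∈ A.1
        · convert A.2 using 1; ext m; simp [e, h]
        · convert Mg.1 _ A.2 using 1; ext m; simp [e, h]
      convert Mg.2.1 _ h2 _ ih using 1
      ext m; simp
  by_contra h
  push Not at h
  refine Mg.2.2 _ h1 n (eq_singleton_iff_unique_mem.2 ⟨fun _ _ => rfl, fun m hm => ?_⟩)
  by_contra h2
  refine h m h2 (huU (hO fun A hA => ?_))
  show e m A ∈ t A
  rw [hm A hA]
  exact mem_of_mem_nhds (ht A)

lemma io_dense : DenseRange io := by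
  rw [DenseRange, Subtype.dense_iff, ← range_comp]
  exact Subset.rfl

lemma unb {U : Set X} (hU : IsOpen U) (hne : U.Nonempty) (k : ℕ) : ∃ m ≥ k, io m ∈ U := by
  induction k generalizing U with
  | zero => simpa using io_dense.exists_mem_open hU hne
  | succ k ih =>
    obtain ⟨n, hn⟩ := io_dense.exists_mem_open hU hne
    have : (U \ {io k}).Nonempty := by
      by_cases h : n = k
      · obtain ⟨m, h1, h2⟩ := noiso (hU.mem_nhds hn)
        exact ⟨_, h2, fun h3 => h1 (h ▸ io_inj h3)⟩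
      · exact ⟨_, hn, fun h3 => h (io_inj h3)⟩
    obtain ⟨m, h1, h2⟩ := ih (hU.sdiff isClosed_singleton) this
    exact ⟨m, lt_of_le_of_ne h1 fun h3 => h2.2 (by rw [h3]; rfl), h2.1⟩

theorem result : ∃ (X : Type) (_ : TopologicalSpace X) (E : Set X), CompactSpace X ∧ T2Space X ∧
    (∀ f : E → ℝ, K1 f → Bdd f → ∃ g : X → ℝ, K1 g ∧ Bdd g ∧ ∀ x : E, g x = f x) ∧
    ¬ ∀ f : E → ℝ, K1 f → ∃ g : X → ℝ, K1 g ∧ ∀ x : E, g x = f x := by
  have hc : CompactSpace X := isCompact_iff_compactSpace.1 isClosed_closure.isCompact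
  refine ⟨X, inferInstance, range io, hc, inferInstance, ?_, fun h => ?_⟩
  · rintro f - ⟨c, hc⟩
    have hc0 : 0 ≤ c := (abs_nonneg _).trans (hc ⟨_, 0, rfl⟩)
    let ψ : (ℕ → Bool) → ℝ := fun σ => (c + 1) * (2 * (Real.fromBinary σ : ℝ) - 1)
    have hψ : Continuous ψ := continuous_const.mul ((continuous_const.mul
      (continuous_subtype_val.comp Real.fromBinary_continuous)).sub continuous_const)
    have h1 : ∀ n, ∃ σ, ψ σ = f ⟨_, n, rfl⟩ := fun n => by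
      have h2 := abs_le.1 (hc ⟨_, n, rfl⟩)
      obtain ⟨σ, hσ⟩ := Real.fromBinary_surjective ⟨(f ⟨_, n, rfl⟩ + (c + 1)) / (2 * (c + 1)),
        div_nonneg (by linarith) (by linarith), (div_le_one (by linarith)).2 (by linarith)⟩
      refine ⟨σ, ?_⟩
      simp only [ψ, hσ]
      field_simp
      ring
    choose σ hσ using h1
    choose B h1 h2 h3 using fun i => tr_all {n | σ n i = true}
    refine ⟨_, k1_of h1 h2 hψ, ⟨c + 1, fun p => ?_⟩, ?_⟩
    · have := (Real.fromBinary fun n => decide (p ∈ B n)).2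
      simp only [ψ]
      rw [abs_le]
      constructor <;> nlinarith [this.1, this.2]
    · rintro ⟨_, n, rfl⟩
      rw [← hσ]
      refine congrArg ψ (funext fun i => ?_)
      have : io n ∈ B i ↔ σ n i = true := Set.ext_iff.1 (h3 i) n
      simp [this]
  · let f : range io → ℝ := fun p => (p.2.choose : ℝ)
    have hf : ∀ n, f ⟨_, n, rfl⟩ = n := fun n =>
      congrArg Nat.cast (io_inj (Exists.choose_spec (⟨n, rfl⟩ : io n ∈ range io)))
    obtain ⟨g, hg, hgf⟩ := h f fun V _ => by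
      convert ffs_iUnion fun n : {n : ℕ // (n : ℝ) ∈ V} =>
        ((fclosed_iInter fun j => hat_clopen _ (md n.1 j)).preimage
          (continuous_subtype_val (p := (· ∈ range io)))).ffs using 1
      ext ⟨_, m, rfl⟩
      simp only [mem_preimage, hf, mem_iUnion]
      exact ⟨fun h => ⟨⟨m, h⟩, io_Zx.2 rfl⟩, fun ⟨n, hn⟩ => io_Zx.1 hn ▸ n.2⟩
    choose Z hZ hZ' using fun k : ℕ => hg (Iio k) isOpen_Iio
    have : Nonempty X := ⟨io 0⟩
    obtain ⟨⟨k, j⟩, hne⟩ := nonempty_interior_of_iUnion_of_closed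
      (f := fun q : ℕ × ℕ => Z q.1 q.2) (fun q => (hZ _ _).isClosed) (by
        refine eq_univ_of_forall fun p => ?_
        obtain ⟨k, hk⟩ := exists_nat_gt (g p)
        obtain ⟨j, hj⟩ := mem_iUnion.1 ((hZ' k).subset hk)
        exact mem_iUnion.2 ⟨(k, j), hj⟩)
    obtain ⟨m, h1, h2⟩ := unb isOpen_interior hne k
    have h3 : g (io m) < k := (hZ' k).symm.subset (mem_iUnion.2 ⟨j, interior_subset h2⟩)
    rw [hgf ⟨_, m, rfl⟩, hf] at h3
    exact absurd (Nat.cast_lt.1 h3) (not_lt.2 h1)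

end Pool.Agent.Results.MP_b12a75_gt.Ultraregular
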